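import Pool.Agent.Y517.NT.An

/-!
# Project NT: analytic functions whose derivatives propagate zeros vanish (S_FLAT)
-/

set_option autoImplicit false

open Set Filter Topology

namespace Pool.Agent.Y932.NT.Flat

theorem iter_zero {F : Type} [NormedAddCommGroup F] [NormedSpace ℝ F] {B T : Set F}
    (hTB : T ⊆ B)
    (H : ∀ φ : F → ℝ, AnalyticOnNhd ℝ φ B → (∀ y ∈ T, φ y = 0) → ∀ y ∈ T, fderiv ℝ φ y = 0)
    (n : ℕ) : ∀ φ : F → ℝ, AnalyticOnNhd ℝ φ B → (∀ y ∈ T, φ y = 0) → ∀ y ∈ T,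
      iteratedFDeriv ℝ n φ y = 0 := by
  induction n with
  | zero =>
    intro φ _ h0 y hy
    ext m
    rw [iteratedFDeriv_zero_apply, h0 y hy]
    rfl
  | succ n ih =>
    intro φ hφ h0 y hy
    ext m
    rw [iteratedFDeriv_succ_apply_right]
    set v := m (Fin.last n) with hv
    have h1 : AnalyticOnNhd ℝ (fderiv ℝ φ) B := hφ.fderiv
    have h2 : AnalyticOnNhd ℝ (fun z => fderiv ℝ φ z v) B := by
      intro z hz
      exact ((ContinuousLinearMap.apply ℝ ℝ v).analyticAt _).comp (h1 z hz)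
    have h3 : ∀ z ∈ T, fderiv ℝ φ z v = 0 := by
      intro z hz
      rw [H φ hφ h0 z hz]
      rfl
    have h4 := ih _ h2 h3 y hy
    have h5 := (ContinuousLinearMap.apply ℝ ℝ v).iteratedFDeriv_comp_left
      (f := fderiv ℝ φ) (x := y) (n := (n : WithTop ℕ∞)) (i := n)
      ((h1 y (hTB hy)).contDiffAt) le_rfl
    have h6 : (⇑(ContinuousLinearMap.apply ℝ ℝ v) ∘ fderiv ℝ φ) = fun z => fderiv ℝ φ z v := by
      ext z
      rfl
    rw [h6, h4] at h5
    have h7 := congrArg (fun q => q (Fin.init m)) h5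
    simpa using h7.symm

theorem t_FLAT : Pool.Agent.Y517.NT.S_FLAT := by
  intro F _ _ _ B T _ hBc hTB hne H φ hφ h0
  obtain ⟨x, hx⟩ := hne
  have hxB := hTB hx
  have h1 : φ =ᶠ[𝓝 x] 0 := by
    obtain ⟨p, hp⟩ := hφ x hxB
    obtain ⟨r, hr⟩ := hp
    have h2 : Metric.eball x r ∈ 𝓝 x := Metric.eball_mem_nhds x hr.r_pos
    filter_upwards [h2] with z hz
    have h3 : z - x ∈ Metric.eball (0 : F) r := by
      simpa [edist_eq_enorm_sub] using hz
    have h4 := hr.hasSum_iteratedFDeriv h3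
    have h5 : (fun n : ℕ => ((n.factorial : ℝ))⁻¹ • (iteratedFDeriv ℝ n φ x) fun _ => z - x) =
        fun _ => 0 := by
      ext n
      rw [iter_zero hTB H n φ hφ h0 x hx]
      simp
    rw [h5, add_sub_cancel] at h4
    exact h4.unique hasSum_zero
  exact fun y hy => hφ.eqOn_zero_of_preconnected_of_eventuallyEq_zero hBc hxB h1 hy

end Pool.Agent.Y932.NT.Flat
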